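import Pool.Agent.N275.GP.Fin2

set_option autoImplicit false

/-!
# Almost every convex polygon is determined by its Dirichlet spectrum

Let `N` be at least `3`. There is an open set `G` of convex `N`-gons whose complement is a null set such
that every `P` in `G` is determined up to congruence, among all convex polygons with at most `N`
vertices, by finitely many of its Dirichlet eigenvalues, and also by all but finitely many of them.
So two isospectral convex polygons, whatever their numbers of vertices, are congruent unless the one
with more vertices (both of them, if they have equally many) belongs to the null set of its class.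
Every bounded convex domain with the same spectrum as `P`, whatever its boundary, is congruent to `P`
or is a polygon with more than `N` vertices. The number of vertices times the least distance of two
non-adjacent sides of `P` is then at most the perimeter of `P`; so there is no such polygon if the
least distance is larger than the `(N + 1)`st part of the perimeter.

Main idea: `4 π t` times the heat trace of `P` is the expected area of the set of positions of a random
loop (a Brownian bridge of duration `t`) inside `P`. By an inclusion-exclusion identity, the difference
of this area from a quadratic polynomial in the extents of the loop is the sum over all pairs of sides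
of the area of the positions where the loop sticks out beyond these two sides but not beyond those
between them, minus the area of the positions where it sticks out in all directions. In general
position the largest unknown term belongs to the two neighbours of one side; up to an exponentially
smaller error it depends only on the length and the two angles of this side, and its asymptotic
behaviour determines these three numbers. Once a side is known its terms can be subtracted, so the
sides become known one after the other, until three are left. It is not known where in the polygon
these sides are. But almost every polygon has a neighbourhood on which an isospectral companion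
depends continuously on it, and the side lengths of the companion turn out to depend linearly on
those of the polygon as long as the angles are fixed. This linear correspondence extends to all
polygons with these angles. If one side is very short, the first term shows that the corresponding
side of the companion has the same length and the same angles; and the sides which can be made short
in this way determine the polygon.
-/

open MeasureTheory Filter Set
open Pool.Agent.W780.PG (IsConvexPolygon region)
open Pool.Agent.W703.GP (dirichletEigenvalue)

namespace Pool.Agent.Results.MP_5b0138_an.AlmostEveryPolygon

/-- a bounded convex domain of the plane -/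
structure ConvexDomain (D : Set ℂ) : Prop where
  isOpen : IsOpen D
  convex : Convex ℝ D
  isBounded : Bornology.IsBounded D
  nonempty : D.Nonempty

/-- `D` is the interior of a convex polygon with exactly `k` vertices -/
def IsPolygon (k : ℕ) (D : Set ℂ) : Prop :=
  ∃ m, m + 3 = k ∧ ∃ q : Fin (m + 3) → ℂ, IsConvexPolygon q ∧ region q = D

/-- congruence: `φ : ℂ ≃ᵢ ℂ` is an isometry of the plane -/
def Congruent (D D' : Set ℂ) : Prop := ∃ φ : ℂ ≃ᵢ ℂ, φ '' D = D'

/-- the least distance between two sides which are not adjacent -/
noncomputable def leastDistance {n : ℕ} (p : Fin (n + 3) → ℂ) : ℝ :=
  sInf {r : ℝ | ∃ i j : Fin (n + 3), j ≠ i ∧ j ≠ i + 1 ∧ i ≠ j + 1 ∧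
    ∃ x ∈ segment ℝ (p i) (p (i + 1)), ∃ y ∈ segment ℝ (p j) (p (j + 1)), r = dist x y}

/-- the perimeter -/
noncomputable def perimeter {n : ℕ} (p : Fin (n + 3) → ℂ) : ℝ := ∑ i, ‖p (i + 1) - p i‖

/-- `p : Fin (n + 3) → ℂ` with `IsConvexPolygon p` lists the vertices of an arbitrary convex polygon
`region p` with `n + 3` vertices, in counterclockwise order; `volume` is Lebesgue measure. -/
theorem result (n : ℕ) : ∃ G : Set (Fin (n + 3) → ℂ), IsOpen G ∧
    volume ({p | IsConvexPolygon p} \ G) = 0 ∧
    ∀ p ∈ G, IsConvexPolygon p ∧
      (∃ K : ℕ, ∀ D : Set ℂ, (∃ k ≤ n + 3, IsPolygon k D) →
        (∀ k, 1 ≤ k → k ≤ K → dirichletEigenvalue (region p) k = dirichletEigenvalue D k) →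
        Congruent (region p) D) ∧
      (∀ D : Set ℂ, (∃ k ≤ n + 3, IsPolygon k D) →
        (∀ᶠ k in atTop, dirichletEigenvalue (region p) k = dirichletEigenvalue D k) →
        Congruent (region p) D) ∧
      ∀ D : Set ℂ, ConvexDomain D →
        (∀ k, 1 ≤ k → dirichletEigenvalue (region p) k = dirichletEigenvalue D k) →
        Congruent (region p) D ∨
          ∃ k > n + 3, IsPolygon k D ∧ k * leastDistance p ≤ perimeter p := by
  obtain ⟨G, h1, h2, h3⟩ := Pool.Agent.N275.GP.final n
  refine ⟨G, h1, h2, fun p hp => ?_⟩
  obtain ⟨hc, ⟨K, g1⟩, g2, g3⟩ := h3 p hp
  refine ⟨hc, ⟨K, ?_⟩, ?_, ?_⟩
  · rintro D ⟨_, hk, m, rfl, q, hq, rfl⟩ h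
    exact g1 m (by omega) q hq h
  · rintro D ⟨_, hk, m, rfl, q, hq, rfl⟩ h
    exact g2 m (by omega) q hq h
  · intro D hD h
    rcases g3 D hD.isOpen hD.convex hD.isBounded hD.nonempty h with h4 | ⟨m, hm, q, hq, rfl, h5⟩
    · exact Or.inl h4
    · refine Or.inr ⟨m + 3, by omega, ⟨m, rfl, q, hq, rfl⟩, ?_⟩
      push_cast
      exact h5

end Pool.Agent.Results.MP_5b0138_an.AlmostEveryPolygon
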