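import Pool.Agent.N275.QD.Res

set_option autoImplicit false

/-!
# Two convex quadrilaterals with the same Dirichlet spectrum are congruent, outside a hypersurface

Let `P`, `Q` be convex quadrilaterals. Assume of each of them that it has two parallel sides or that
its two pairs of opposite sides have different distances. If `P` and `Q` have the same Dirichlet
spectrum, up to finitely many eigenvalues, then they are congruent.

Main idea: `4 π t` times the heat trace is the expected area of the set of positions of a random loop
(a Brownian bridge of duration `t`) inside the polygon. After the three classical heat invariants are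
subtracted there remains, up to a much smaller error, a function of the length `l` of one side and of
its exterior angles `α ≤ β`: the side between the two sides which are nearest to each other. This
function is the measure of the loops which come round both vertices of the side. By comparison with
the Dirichlet heat kernels of wedges its asymptotic behaviour for small `t` is found up to an unknown
factor, to the second order: the ratio of the functions of two sides with the same exponential rate.
The coefficients are the moments `∫ μ ^ k sinh (α μ) / sinh ((π - α) μ) dμ`, `k = 2, 4`, and, if
`β > π / 2`, `∫ sinh (α μ) sinh ((β - π / 2) μ) ^ 2 / sinh ((π - α) μ) dμ`; they and the exponential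
rate determine `α`, `β`, `l`. The area and the perimeter then leave at most two quadrilaterals, and
these are told apart by a reflection of Brownian paths.
-/

open Set Filter
open Pool.Agent.W780.PG (IsConvexPolygon region)
open Pool.Agent.W703.GP (dirichletEigenvalue)

namespace Pool.Agent.Results.MP_5b0138_an.ConvexQuadrilaterals

/-- the distance of the side from `p k` to `p (k + 1)` from the opposite side -/
noncomputable def oppositeDistance (p : Fin (1 + 3) → ℂ) (k : Fin (1 + 3)) : ℝ :=
  sInf {r : ℝ | ∃ x ∈ segment ℝ (p k) (p (k + 1)), ∃ y ∈ segment ℝ (p (k + 2)) (p (k + 3)),
    r = dist x y}

/-- two opposite sides are parallel, or the distances of the two pairs of opposite sides differ -/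
def Regular (p : Fin (1 + 3) → ℂ) : Prop :=
  oppositeDistance p 0 ≠ oppositeDistance p 1 ∨
    ∃ (k : Fin (1 + 3)) (r : ℝ), p (k + 2) - p (k + 3) = r * (p (k + 1) - p k)

/-- `p`, `q : Fin (1 + 3) → ℂ` with `IsConvexPolygon p`, `IsConvexPolygon q` list the vertices of
arbitrary convex quadrilaterals `region p`, `region q`, in counterclockwise order. The Dirichlet
eigenvalues number `k`, with multiplicity, defined by the min-max formula, agree for all but finitely
many `k`, and `φ : ℂ ≃ᵢ ℂ` is an isometry of the plane. -/
theorem result (p q : Fin (1 + 3) → ℂ) (hp : IsConvexPolygon p) (hq : IsConvexPolygon q)
    (hrp : Regular p) (hrq : Regular q)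
    (h : ∀ᶠ k in atTop, dirichletEigenvalue (region p) k = dirichletEigenvalue (region q) k) :
    ∃ φ : ℂ ≃ᵢ ℂ, φ '' region p = region q :=
  Pool.Agent.N275.QD.main_reg hp hq hrp hrq (Pool.Agent.R225.LP.almost hp hq h)

end Pool.Agent.Results.MP_5b0138_an.ConvexQuadrilaterals
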