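import Pool.Agent.N596.NR.V
import Pool.Agent.N596.NR.N
import Pool.Agent.N596.IS.A12
import Pool.Agent.R225.LP.AJ

set_option autoImplicit false

/-!
# Almost all nearly equiangular polygons are determined by their Dirichlet spectrum

Let `N ≥ 5` and `η > 0`. There is `δ > 0` such that the following holds for all convex `N`-gons `P`
whose angles differ from the mean value `(1 - 2 / N) π` by less than `δ`, whose perimeter is at most
`N + 1 - η` times each side and whose sides are at most `4 / 3 - η` times each other side, for
instance for all convex `N`-gons which are close enough to a regular one. If the sides of `P` have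
pairwise different lengths, then each bounded convex domain with the same Dirichlet spectrum is
congruent to a convex `N`-gon with the same sides, in some order, each of them with the same length
and the same two angles at its ends. If the angles of `P` are pairwise different, too, then it is
congruent to `P`. Both conditions are satisfied by almost all convex `N`-gons.

Main idea: `4 π t` times the heat trace is the expected area of the set of positions of a random
loop (a Brownian bridge of duration `t`) inside the domain. By the heat invariants, by the least
distance of two non-adjacent sides and by a compactness argument, a convex domain `Q` isospectral to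
`P` is a nearly equiangular `N`-gon, too. For such polygons the remainder of the heat trace, after the
three classical invariants are subtracted, is a sum over the sides of one and the same function
`F (l, α, β, t)` of the length `l` of the side and of the two exterior angles at its ends, up to an
error which is exponentially smaller than all the terms of `P`. For `t → 0` the function `F` is of
the order `exp (-l ^ 2 / t)`, up to powers of `t`, and it is known up to a factor which does not
depend on the angles, to the second order in `t` (diffraction at the two ends of the side): the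
ratio of two such functions with the same `l` determines the angles, and is near `1` if the angles
are nearly equal. So the shortest side of `P` has exactly one counterpart in `Q`, with the same
length and the same angles at its ends. Then its contribution and that of its counterpart cancel
exactly, and the next side can be treated.
-/

open Set MeasureTheory Filter
open Pool.Agent.W780.PG (IsConvexPolygon region)
open Pool.Agent.W703.GP (dirichletEigenvalue)
open scoped Real

namespace Pool.Agent.Results.MP_5b0138_an.NearlyEquiangularPolygons

/-- a bounded convex domain of the plane -/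
structure ConvexDomain (K : Set ℂ) : Prop where
  isOpen : IsOpen K
  convex : Convex ℝ K
  isBounded : Bornology.IsBounded K
  nonempty : K.Nonempty

/-- all Dirichlet eigenvalues, with multiplicity, agree; if `K` is a polygon (the interior of the
convex hull of finitely many points), then finitely many exceptions are allowed -/
def SameSpectrum (P K : Set ℂ) : Prop :=
  (∀ k : ℕ, 1 ≤ k → dirichletEigenvalue P k = dirichletEigenvalue K k) ∨
    (∃ S : Set ℂ, S.Finite ∧ K = interior (convexHull ℝ S)) ∧
      ∀ᶠ k in atTop, dirichletEigenvalue P k = dirichletEigenvalue K k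

/-- the length of the side from `p k` to `p (k + 1)` -/
noncomputable def side {n : ℕ} (p : Fin (n + 3) → ℂ) (k : Fin (n + 3)) : ℝ := ‖p (k + 1) - p k‖

/-- the interior angle at the vertex `p k` -/
noncomputable def vertexAngle {n : ℕ} (p : Fin (n + 3) → ℂ) (k : Fin (n + 3)) : ℝ :=
  EuclideanGeometry.angle (p (k - 1)) (p k) (p (k + 1))

/-- `q` has the same sides as `p`, in some order, with the same lengths and the same two angles at
their ends -/
def SameSides {n : ℕ} (p q : Fin (n + 3) → ℂ) : Prop :=
  ∃ σ : Equiv.Perm (Fin (n + 3)), ∀ k, side q k = side p (σ k) ∧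
    ((vertexAngle q k = vertexAngle p (σ k) ∧ vertexAngle q (k + 1) = vertexAngle p (σ k + 1)) ∨
      (vertexAngle q k = vertexAngle p (σ k + 1) ∧ vertexAngle q (k + 1) = vertexAngle p (σ k)))

/-- `IsConvexPolygon p` says that `p` lists the `N = n + 5` vertices of a convex polygon in
counterclockwise order, and `region p` is its interior. -/
theorem result (n : ℕ) (η : ℝ) (hη : 0 < η) :
    (∃ δ : ℝ, 0 < δ ∧ ∀ p : Fin (n + 2 + 3) → ℂ, IsConvexPolygon p →
      (∀ j, |vertexAngle p j - π * (n + 3) / (n + 5)| < δ) →
      (∀ k, ∑ j, side p j ≤ (n + 6 - η) * side p k) →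
      (∀ j k, side p j ≤ (4 / 3 - η) * side p k) →
      Function.Injective (side p) →
      ∀ K : Set ℂ, ConvexDomain K → SameSpectrum (region p) K →
        (∃ q : Fin (n + 2 + 3) → ℂ, IsConvexPolygon q ∧ SameSides p q ∧
          ∃ φ : ℂ ≃ᵢ ℂ, φ '' region q = K) ∧
        (Function.Injective (vertexAngle p) → ∃ φ : ℂ ≃ᵢ ℂ, φ '' region p = K)) ∧
    volume {p : Fin (n + 2 + 3) → ℂ | IsConvexPolygon p ∧
      ¬ (Function.Injective (side p) ∧ Function.Injective (vertexAngle p))} = 0 := by
  refine ⟨?_, Pool.Agent.N596.NR.scalene_null (n + 1)⟩
  obtain ⟨δ, hδ, h⟩ := Pool.Agent.N596.NR.unif n η hη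
  refine ⟨δ, hδ, fun p hp h1 h2 h3 h4 K hK hspec => ?_⟩
  -- the domain is a polygon
  have hpoly : ∃ (m : ℕ) (q : Fin (m + 3) → ℂ), IsConvexPolygon q ∧ region q = K ∧
      Pool.Agent.W703.GP.Isospectral (region p) (region q) := by
    rcases hspec with hs | ⟨⟨S, hS, rfl⟩, hs⟩
    · obtain ⟨m, q, hq, e⟩ := Pool.Agent.N596.IS.poly_of_iso hK.isOpen hK.convex hK.isBounded
        hK.nonempty hp fun k => (hs (k + 1) (by omega)).symm
      refine ⟨m, q, hq, e, Pool.Agent.R225.LP.almost hp hq ?_⟩
      rw [e]
      filter_upwards [eventually_ge_atTop 1] with k hk
      exact hs k hk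
    · obtain ⟨m, q, hq, e⟩ := Pool.Agent.Y459.HI.vs S hS hK.nonempty
      refine ⟨m, q, hq, e, Pool.Agent.R225.LP.almost hp hq ?_⟩
      rw [e]
      exact hs
  obtain ⟨m, q, hq, rfl, hiso⟩ := hpoly
  obtain ⟨q', hq', hφ, hS⟩ := h p hp h1 h2 h3 h4 m q hq hiso
  refine ⟨⟨q', hq', ?_, hφ⟩, fun hang => ?_⟩
  · obtain ⟨σ, hσ, hk⟩ := hS
    exact ⟨Equiv.ofBijective σ (Finite.injective_iff_bijective.1 hσ), hk⟩
  · obtain ⟨ψ, hψ⟩ := Pool.Agent.N596.NR.congr_of_sides hp hq' hS hang
    obtain ⟨φ, hφ⟩ := hφ
    refine ⟨ψ.trans φ, ?_⟩
    have : (ψ.trans φ : ℂ → ℂ) = φ ∘ ψ := rfl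
    rw [this, image_comp, hψ, hφ]

end Pool.Agent.Results.MP_5b0138_an.NearlyEquiangularPolygons
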