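import Pool.Agent.N596.IS.A12

set_option autoImplicit false

/-!
# One can hear whether a convex drum is a polygon

A bounded convex domain `K` of the plane, without any assumption on the regularity of its boundary,
is a polygon if and only if its Dirichlet heat trace has the form `a / t + b / √t + c` up to an
error `O(exp (-δ / t))`. So every bounded convex domain which is isospectral to a convex polygon is a
convex polygon, and every theorem which determines a convex polygon by its spectrum among all convex
polygons determines it among all bounded convex domains.

Main idea: `4 π t` times the heat trace is the expected area of the set of positions of a random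
loop (a Brownian bridge of duration `t`) inside the domain. If the loop `X` is enlarged by the
factors `0, 1, 2, 3` (the durations are `0`, `t`, `4 t`, `9 t`), then the third difference of the
areas of `K ⊖ s X`, `s = 0, 1, 2, 3`, is nonnegative for every convex `K`, and positive if the loop is
close to a segment which joins two extreme points of `K` and back. In the third difference of the
heat traces the terms `a`, `b √t`, `c t` cancel. For a polygon it is exponentially small, since the
third difference of the areas vanishes for short loops. If `K` has infinitely many extreme points,
then there are arbitrarily close ones, and the probability that the loop is close to the segment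
which joins them is at least `exp (-ε / t)`, for an arbitrary `ε > 0`.
-/

open Set MeasureTheory
open Pool.Agent.W703.GP (dirichletEigenvalue)

namespace Pool.Agent.Results.MP_5b0138_an.PolygonsAmongConvexDomains

/-- a bounded convex domain of the plane -/
structure ConvexDomain (K : Set ℂ) : Prop where
  isOpen : IsOpen K
  convex : Convex ℝ K
  isBounded : Bornology.IsBounded K
  nonempty : K.Nonempty

/-- `K` is the interior of the convex hull of finitely many points -/
def Polygonal (K : Set ℂ) : Prop := ∃ S : Set ℂ, S.Finite ∧ K = interior (convexHull ℝ S)

/-- the same Dirichlet eigenvalues, with multiplicity -/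
def SameSpectrum (K K' : Set ℂ) : Prop :=
  ∀ k : ℕ, 1 ≤ k → dirichletEigenvalue K k = dirichletEigenvalue K' k

/-- the heat trace, the sum of `exp (-t λ_k)` over the Dirichlet eigenvalues -/
noncomputable def heatTrace (K : Set ℂ) (t : ℝ) : ℝ :=
  ∑' k : ℕ, Real.exp (-(t * dirichletEigenvalue K (k + 1)))

/-- For a bounded convex domain `K` of the plane these are equivalent: `K` is a polygon; `K` has the
same Dirichlet spectrum as some convex polygon; up to an exponentially small error, the heat trace
of `K` is `a / t + b / √t + c`. -/
theorem result (K : Set ℂ) (hK : ConvexDomain K) :
    List.TFAE [Polygonal K,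
      ∃ P : Set ℂ, ConvexDomain P ∧ Polygonal P ∧ SameSpectrum K P,
      ∃ a b c C δ : ℝ, 0 < δ ∧ ∀ t : ℝ, 0 < t → t < 1 →
        |heatTrace K t - (a / t + b / √t + c)| ≤ C * Real.exp (-(δ / t))] := by
  tfae_have 1 → 2 := fun h => ⟨K, hK, h, fun _ _ => rfl⟩
  tfae_have 2 → 3 := by
    rintro ⟨P, hP, hPp, h⟩
    have e : ∀ t, heatTrace K t = Pool.Agent.Y289.SQ.Z P t := fun t =>
      tsum_congr fun k => by rw [h (k + 1) (by omega)]
    obtain ⟨a, b, c, C, δ, hδ, h1⟩ :=
      (Pool.Agent.N596.IS.char hP.isOpen hP.convex hP.isBounded hP.nonempty).1 hPp
    exact ⟨a, b, c, C, δ, hδ, fun t ht ht1 => by rw [e t]; exact h1 t ht ht1⟩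
  tfae_have 3 → 1 :=
    (Pool.Agent.N596.IS.char hK.isOpen hK.convex hK.isBounded hK.nonempty).2
  tfae_finish

end Pool.Agent.Results.MP_5b0138_an.PolygonsAmongConvexDomains
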